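import Pool.Agent.H671R2.PolyAuto
import Pool.Agent.H622R2.CoNP

/-!
# A polynomial-time test for bridges in multigraphs given by their incidence matrix
-/

set_option autoImplicit false

namespace Pool.Agent.H413R2.Sign

open Pool.Agent.NPC

/-- The code of the multigraph with vertex set `Fin n` and edges `Fin k`, the ends of the edge `e`
being the two entries of `ends e`: the number `n` in unary, and the `k × n` incidence matrix, row by
row. -/
def code {n k : ℕ} (ends : Fin k → Fin n × Fin n) : List Bool :=
  pairBits (List.replicate n true)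
    (List.ofFn (fun e : Fin k =>
      List.ofFn (fun v : Fin n => decide ((ends e).1 = v ∨ (ends e).2 = v)))).flatten

/-- the entry of the incidence matrix -/
def ent (n : ℕ) (m : List Bool) (e v : ℕ) : Bool := m.getD (e * n + v) false

/-- the vertices in `S` and the vertices joined to `S` by an edge different from `e` -/
def grow (n : ℕ) (m : List Bool) (e : ℕ) (S : List ℕ) : List ℕ :=
  (List.range n).filter (fun v => decide (v ∈ S) || (List.range m.length).any (fun e' =>
    !(decide (e' = e)) && (ent n m e' v && S.any (fun w => ent n m e' w))))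

/-- the ends of the edge `e` -/
def endsL (n : ℕ) (m : List Bool) (e : ℕ) : List ℕ := (List.range n).filter (fun v => ent n m e v)

/-- the vertices joined to the first end of `e` without the edge `e` -/
def comp (n : ℕ) (m : List Bool) (e : ℕ) : List ℕ :=
  (grow n m e)^[n] ((List.range n).filter (fun v => decide (v = (endsL n m e).getD 0 0)))

/-- some edge is a bridge -/
def hasBridge (n : ℕ) (m : List Bool) : Bool :=
  (List.range m.length).any (fun e => (endsL n m e).any (fun v => !(decide (v ∈ comp n m e))))

/-! ### The test runs in polynomial time -/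

section poly
variable {α : Type} [TEnc α] {a m : α → List Bool} {e v : α → ℕ} {S : α → List ℕ}

theorem p1 {β γ : Type} [TEnc β] [TEnc γ] : Poly (fun q : β × γ => q.1) := Poly.fst Poly.id

theorem p2 {β γ : Type} [TEnc β] [TEnc γ] : Poly (fun q : β × γ => q.2) := Poly.snd Poly.id

theorem poly_ent (ha : Poly a) (hm : Poly m) (he : Poly e) (hv : Poly v) :
    Poly (fun x => ent (a x).length (m x) (e x) (v x)) :=
  Poly.getD hm (Poly.add (Poly.mul he (Poly.length ha)) hv) (NPC.Poly.const false)

theorem poly_grow (ha : Poly a) (hm : Poly m) (he : Poly e) (hS : Poly S) :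
    Poly (fun x => grow (a x).length (m x) (e x) (S x)) := by
  unfold grow
  refine Poly.filter (p := fun x v => decide (v ∈ S x) || (List.range (m x).length).any (fun e' =>
    !(decide (e' = e x)) && (ent (a x).length (m x) e' v &&
      (S x).any (fun w => ent (a x).length (m x) e' w)))) (Poly.range_length ha)
    (Poly.or (Poly.decide_mem p2 (hS.comp p1)) ?_)
  refine Poly.any (α := α × ℕ) (p := fun q e' => !(decide (e' = e q.1)) &&
    (ent (a q.1).length (m q.1) e' q.2 &&
      (S q.1).any (fun w => ent (a q.1).length (m q.1) e' w))) (Poly.range_length (hm.comp p1)) ?_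
  have ha' : Poly (fun q : (α × ℕ) × ℕ => a q.1.1) := ha.comp (p1.comp p1)
  have hm' : Poly (fun q : (α × ℕ) × ℕ => m q.1.1) := hm.comp (p1.comp p1)
  refine Poly.and (Poly.not (Poly.decide_eq p2 (he.comp (p1.comp p1)))) (Poly.and
    (poly_ent ha' hm' p2 (p2.comp p1)) ?_)
  exact Poly.any (α := (α × ℕ) × ℕ) (p := fun q w => ent (a q.1.1).length (m q.1.1) q.2 w)
    (hS.comp (p1.comp p1)) (poly_ent (ha'.comp p1) (hm'.comp p1) (p2.comp p1) p2)

theorem poly_endsL (ha : Poly a) (hm : Poly m) (he : Poly e) :
    Poly (fun x => endsL (a x).length (m x) (e x)) :=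
  Poly.filter (p := fun x v => ent (a x).length (m x) (e x) v) (Poly.range_length ha)
    (poly_ent (ha.comp p1) (hm.comp p1) (he.comp p1) p2)

theorem sz_filter_le {β : Type} [TEnc β] (p : β → Bool) (l : List β) : sz (l.filter p) ≤ sz l := by
  induction l with
  | nil => simp
  | cons b l ih =>
    cases h : p b
    · rw [List.filter_cons_of_neg (by simpa using h)]
      simp only [sz_list_cons]
      omega
    · rw [List.filter_cons_of_pos h]
      simp only [sz_list_cons]
      omega

theorem poly_comp (ha : Poly a) (hm : Poly m) (he : Poly e) :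
    Poly (fun x => comp (a x).length (m x) (e x)) := by
  unfold comp
  obtain ⟨r, hr⟩ := (Poly.range_length ha).sz_le
  refine Poly.iterLen (l := a) (s := fun x => (List.range (a x).length).filter
    (fun v => decide (v = (endsL (a x).length (m x) (e x)).getD 0 0)))
    (F := fun x s => grow (a x).length (m x) (e x) s) ha ?_
    (poly_grow (ha.comp p1) (hm.comp p1) (he.comp p1) p2) r ?_
  · exact Poly.filter (p := fun x v => decide (v = (endsL (a x).length (m x) (e x)).getD 0 0))
      (Poly.range_length ha) (Poly.decide_eq p2 (Poly.getD ((poly_endsL ha hm he).comp p1)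
        (NPC.Poly.const 0) (NPC.Poly.const 0)))
  · intro x k _
    cases k with
    | zero => exact (sz_filter_le _ _).trans (hr x)
    | succ k =>
      rw [Function.iterate_succ_apply']
      exact (sz_filter_le _ _).trans (hr x)

theorem poly_hasBridge (ha : Poly a) (hm : Poly m) :
    Poly (fun x => hasBridge (a x).length (m x)) := by
  unfold hasBridge
  refine Poly.any (p := fun x e => (endsL (a x).length (m x) e).any
    (fun v => !(decide (v ∈ comp (a x).length (m x) e)))) (Poly.range_length hm) ?_
  refine Poly.any (α := α × ℕ) (p := fun q v => !(decide (v ∈ comp (a q.1).length (m q.1) q.2)))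
    (poly_endsL (ha.comp p1) (hm.comp p1) p2) ?_
  exact Poly.not (Poly.decide_mem p2 ((poly_comp (ha.comp p1) (hm.comp p1) p2).comp p1))

end poly

end Pool.Agent.H413R2.Sign
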