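import Pool.Agent.H413R2.Sign.Alg
import Pool.Agent.H753R2.FR.T_F1

/-!
# Correctness of the test for bridges
-/

set_option autoImplicit false

namespace Pool.Agent.H413R2.Sign

open Pool.Agent.H753R2.FR

/-! ### The matrix -/

theorem flat {n : ℕ} : ∀ (k : ℕ) (b : Fin k → List Bool), (∀ e, (b e).length = n) →
    (List.ofFn b).flatten.length = k * n ∧
    ∀ (e : Fin k) (v : ℕ), v < n → (List.ofFn b).flatten.getD (e.val * n + v) false =
      (b e).getD v false := by
  intro k
  induction k with
  | zero =>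
    intro b _
    refine ⟨by simp, fun e => e.elim0⟩
  | succ k ih =>
    intro b hb
    obtain ⟨h1, h2⟩ := ih (fun i => b i.succ) (fun i => hb i.succ)
    rw [List.ofFn_succ, List.flatten_cons]
    refine ⟨?_, ?_⟩
    · rw [List.length_append, h1, hb 0]; ring
    · intro e v hv
      refine Fin.cases ?_ ?_ e
      · rw [List.getD_append _ _ _ _ (by rw [hb 0]; simpa using hv)]
        simp
      · intro i
        have e1 : (i.succ : Fin (k + 1)).val * n + v = n + (i.val * n + v) := by
          rw [Fin.val_succ]; ring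
        rw [e1, List.getD_append_right _ _ _ _ (by rw [hb 0]; omega), hb 0,
          Nat.add_sub_cancel_left]
        exact h2 i v hv

variable {n k : ℕ} (ends : Fin k → Fin n × Fin n)

/-- the incidence matrix -/
def mat : List Bool := (List.ofFn (fun e : Fin k =>
  List.ofFn (fun v : Fin n => decide ((ends e).1 = v ∨ (ends e).2 = v)))).flatten

theorem mat_length : (mat ends).length = k * n := (flat (n := n) k _ (fun e => by simp)).1

theorem ent_mat (e : Fin k) (v : Fin n) :
    ent n (mat ends) e.val v.val = decide ((ends e).1 = v ∨ (ends e).2 = v) := by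
  have h := (flat (n := n) k (fun e : Fin k => List.ofFn (fun v : Fin n =>
    decide ((ends e).1 = v ∨ (ends e).2 = v))) (fun e => by simp)).2 e v.val v.isLt
  unfold ent mat
  rw [h, List.getD_eq_getElem _ _ (by simp)]
  simp

theorem ent_mat_ge {e v : ℕ} (he : k ≤ e) : ent n (mat ends) e v = false := by
  unfold ent
  apply List.getD_eq_default
  rw [mat_length]
  calc k * n ≤ e * n := Nat.mul_le_mul_right _ he
    _ ≤ _ := Nat.le_add_right _ _

theorem ent_true {e v : ℕ} (hv : v < n) (h : ent n (mat ends) e v = true) :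
    ∃ e' : Fin k, e'.val = e ∧ ((ends e').1 = ⟨v, hv⟩ ∨ (ends e').2 = ⟨v, hv⟩) := by
  by_cases he : e < k
  · refine ⟨⟨e, he⟩, rfl, ?_⟩
    have h1 := ent_mat ends ⟨e, he⟩ ⟨v, hv⟩
    simp only at h1
    rw [h] at h1
    simpa using h1.symm
  · rw [ent_mat_ge ends (not_lt.1 he)] at h
    exact absurd h (by simp)

/-! ### Growing -/

/-- the graph without the edge `e` -/
def gre (e : Fin k) : SimpleGraph (Fin n) :=
  SimpleGraph.fromRel (fun u v : Fin n => ∃ f ∈ (Finset.univ : Finset (Fin k)).erase e,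
    ends f = (u, v))

theorem mem_grow {e v : ℕ} {S : List ℕ} : v ∈ grow n (mat ends) e S ↔ v < n ∧ (v ∈ S ∨
    ∃ e' < (mat ends).length, e' ≠ e ∧ ent n (mat ends) e' v = true ∧
      ∃ w ∈ S, ent n (mat ends) e' w = true) := by
  unfold grow
  rw [List.mem_filter, List.mem_range]
  simp only [Bool.or_eq_true, decide_eq_true_eq, List.any_eq_true, List.mem_range,
    Bool.and_eq_true, Bool.not_eq_true', decide_eq_false_iff_not, ne_eq]

theorem gre_ends (e f : Fin k) (hf : f ≠ e) : (gre ends e).Reachable (ends f).1 (ends f).2 := by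
  by_cases h : (ends f).1 = (ends f).2
  · rw [h]
  · apply SimpleGraph.Adj.reachable
    unfold gre
    rw [SimpleGraph.fromRel_adj]
    exact ⟨h, Or.inl ⟨f, Finset.mem_erase.2 ⟨hf, Finset.mem_univ f⟩, rfl⟩⟩

theorem reach_two (e f : Fin k) (hf : f ≠ e) {u v : Fin n} (hu : (ends f).1 = u ∨ (ends f).2 = u)
    (hv : (ends f).1 = v ∨ (ends f).2 = v) : (gre ends e).Reachable u v := by
  have h := gre_ends ends e f hf
  rcases hu with hu | hu <;> rcases hv with hv | hv <;> rw [← hu, ← hv]
  · exact h
  · exact h.symm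

/-- soundness -/
theorem grow_sound (e : Fin k) (s : Fin n) {S : List ℕ}
    (hS : ∀ v ∈ S, ∃ hv : v < n, (gre ends e).Reachable s ⟨v, hv⟩) :
    ∀ v ∈ grow n (mat ends) e.val S, ∃ hv : v < n, (gre ends e).Reachable s ⟨v, hv⟩ := by
  intro v hv
  rw [mem_grow] at hv
  obtain ⟨hvn, h | ⟨e', _, hne, h1, w, hw, h2⟩⟩ := hv
  · exact hS v h
  · refine ⟨hvn, ?_⟩
    obtain ⟨hwn, hr⟩ := hS w hw
    obtain ⟨f, hf, hf1⟩ := ent_true ends hvn h1
    obtain ⟨f', hf', hf1'⟩ := ent_true ends hwn h2
    have : f' = f := Fin.ext (by omega)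
    subst this
    have hfe : f' ≠ e := fun h => hne (by rw [← hf', h])
    exact hr.trans (reach_two ends e f' hfe hf1' hf1)

theorem mem_grow_of_adj (e : Fin k) {u v : Fin n} (h : (gre ends e).Adj u v) {S : List ℕ}
    (hu : u.val ∈ S) : v.val ∈ grow n (mat ends) e.val S := by
  unfold gre at h
  rw [SimpleGraph.fromRel_adj] at h
  rw [mem_grow]
  refine ⟨v.isLt, Or.inr ?_⟩
  obtain ⟨f, hfe, h1, h2⟩ : ∃ f : Fin k, f ≠ e ∧ ((ends f).1 = v ∨ (ends f).2 = v) ∧
      ((ends f).1 = u ∨ (ends f).2 = u) := by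
    rcases h.2 with ⟨f, hf, he⟩ | ⟨f, hf, he⟩
    · exact ⟨f, Finset.ne_of_mem_erase hf, Or.inr (by rw [he]), Or.inl (by rw [he])⟩
    · exact ⟨f, Finset.ne_of_mem_erase hf, Or.inl (by rw [he]), Or.inr (by rw [he])⟩
  refine ⟨f.val, ?_, fun h => hfe (Fin.ext h), ?_, u.val, hu, ?_⟩
  · rw [mat_length]
    have hn : 0 < n := u.pos
    calc f.val < k := f.isLt
      _ = k * 1 := (mul_one k).symm
      _ ≤ k * n := Nat.mul_le_mul_left _ hn
  · rw [ent_mat]; simpa using h1
  · rw [ent_mat]; simpa using h2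

theorem grow_mono_mem (e : ℕ) {S : List ℕ} {v : ℕ} (hv : v < n) (h : v ∈ S) :
    v ∈ grow n (mat ends) e S := by
  rw [mem_grow]
  exact ⟨hv, Or.inl h⟩

theorem iter_mono (e : ℕ) {S : List ℕ} {v : ℕ} (hv : v < n) {i j : ℕ} (hij : i ≤ j)
    (h : v ∈ (grow n (mat ends) e)^[i] S) : v ∈ (grow n (mat ends) e)^[j] S := by
  induction hij with
  | refl => exact h
  | step _ ih =>
    rw [Function.iterate_succ_apply']
    exact grow_mono_mem ends e hv ih

theorem walk_mem (e : Fin k) {u v : Fin n} (p : (gre ends e).Walk u v) :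
    ∀ {S : List ℕ}, u.val ∈ S → v.val ∈ (grow n (mat ends) e.val)^[p.length] S := by
  induction p with
  | nil => intro S h; exact h
  | @cons a b c h p ih =>
    intro S hS
    rw [SimpleGraph.Walk.length_cons, Function.iterate_succ_apply]
    exact ih (mem_grow_of_adj ends e h hS)

/-- the component of the first end -/
theorem mem_comp (e : Fin k) (s : Fin n) (hs : (endsL n (mat ends) e.val).getD 0 0 = s.val)
    (v : Fin n) : v.val ∈ comp n (mat ends) e.val ↔ (gre ends e).Reachable s v := by
  have h0 : ∀ w : ℕ, w ∈ (List.range n).filter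
      (fun v => decide (v = (endsL n (mat ends) e.val).getD 0 0)) ↔ w = s.val := by
    intro w
    rw [List.mem_filter, List.mem_range, hs, decide_eq_true_eq]
    constructor
    · exact fun h => h.2
    · intro h; exact ⟨by rw [h]; exact s.isLt, h⟩
  constructor
  · intro h
    have key : ∀ j, ∀ v ∈ (grow n (mat ends) e.val)^[j] ((List.range n).filter
        (fun v => decide (v = (endsL n (mat ends) e.val).getD 0 0))),
        ∃ hv : v < n, (gre ends e).Reachable s ⟨v, hv⟩ := by
      intro j
      induction j with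
      | zero =>
        intro v hv
        rw [Function.iterate_zero_apply, h0] at hv
        exact ⟨by rw [hv]; exact s.isLt, by subst hv; exact SimpleGraph.Reachable.refl _⟩
      | succ j ih =>
        intro v hv
        rw [Function.iterate_succ_apply'] at hv
        exact grow_sound ends e s ih v hv
    obtain ⟨_, hr⟩ := key n v.val h
    exact hr
  · rintro ⟨w⟩
    classical
    have hp := w.bypass_isPath
    have hlen := hp.length_lt
    rw [Fintype.card_fin] at hlen
    exact iter_mono ends e.val v.isLt hlen.le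
      (walk_mem ends e w.bypass ((h0 s.val).2 rfl))

theorem mem_endsL (e : ℕ) (v : ℕ) :
    v ∈ endsL n (mat ends) e ↔ v < n ∧ ent n (mat ends) e v = true := by
  unfold endsL
  rw [List.mem_filter, List.mem_range]

theorem bridge_iff (e : Fin k) : ((endsL n (mat ends) e.val).any
    (fun v => !(decide (v ∈ comp n (mat ends) e.val))) = true) ↔
      ¬ (gre ends e).Reachable (ends e).1 (ends e).2 := by
  have hmem1 : (ends e).1.val ∈ endsL n (mat ends) e.val := by
    rw [mem_endsL]
    refine ⟨(ends e).1.isLt, ?_⟩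
    rw [ent_mat]; simp
  have hmem2 : (ends e).2.val ∈ endsL n (mat ends) e.val := by
    rw [mem_endsL]
    refine ⟨(ends e).2.isLt, ?_⟩
    rw [ent_mat]; simp
  have hpos : 0 < (endsL n (mat ends) e.val).length := List.length_pos_of_mem hmem1
  obtain ⟨s0, hs0⟩ : ∃ s0, s0 = (endsL n (mat ends) e.val).getD 0 0 := ⟨_, rfl⟩
  have hs1 : s0 ∈ endsL n (mat ends) e.val := by
    rw [hs0, List.getD_eq_getElem _ _ hpos]
    exact List.getElem_mem _
  rw [mem_endsL] at hs1
  obtain ⟨f, hf, hfs⟩ := ent_true ends hs1.1 hs1.2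
  have hfe : f = e := Fin.ext hf
  subst hfe
  have hc := mem_comp ends f ⟨s0, hs1.1⟩ hs0.symm
  constructor
  · intro h hr
    rw [List.any_eq_true] at h
    obtain ⟨v, hv, hv2⟩ := h
    rw [mem_endsL] at hv
    obtain ⟨f', hf', hfv⟩ := ent_true ends hv.1 hv.2
    have hfe' : f' = f := Fin.ext (by omega)
    subst hfe'
    simp only [Bool.not_eq_true', decide_eq_false_iff_not] at hv2
    apply hv2
    have := (hc ⟨v, hv.1⟩).2
    apply this
    rcases hfs with h1 | h1 <;> rcases hfv with h2 | h2
    · rw [← h1, ← h2]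
    · rw [← h1, ← h2]; exact hr
    · rw [← h1, ← h2]; exact hr.symm
    · rw [← h1, ← h2]
  · intro h
    rw [List.any_eq_true]
    rcases hfs with h1 | h1
    · refine ⟨(ends f).2.val, hmem2, ?_⟩
      simp only [Bool.not_eq_true', decide_eq_false_iff_not]
      intro h2
      apply h
      rw [h1]
      exact (hc (ends f).2).1 h2
    · refine ⟨(ends f).1.val, hmem1, ?_⟩
      simp only [Bool.not_eq_true', decide_eq_false_iff_not]
      intro h2
      apply h
      rw [h1]
      exact ((hc (ends f).1).1 h2).symm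

theorem hasBridge_iff : hasBridge n (mat ends) = true ↔ ¬ Bridgeless (D6b.gr ends) := by
  unfold hasBridge Bridgeless
  rw [List.any_eq_true, not_forall]
  constructor
  · rintro ⟨e, he, h⟩
    rw [List.any_eq_true] at h
    obtain ⟨v, hv, hv2⟩ := h
    have hv' := hv
    rw [mem_endsL] at hv'
    obtain ⟨f, hf, _⟩ := ent_true ends hv'.1 hv'.2
    refine ⟨f, ?_⟩
    have h1 := (bridge_iff ends f).1 (by
      rw [hf, List.any_eq_true]
      exact ⟨v, hv, hv2⟩)
    rw [D6b.conn_eq]
    exact h1
  · rintro ⟨e, he⟩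
    rw [D6b.conn_eq] at he
    refine ⟨e.val, ?_, (bridge_iff ends e).2 he⟩
    rw [List.mem_range, mat_length]
    have hn : 0 < n := (ends e).1.pos
    calc e.val < k := e.isLt
      _ = k * 1 := (mul_one k).symm
      _ ≤ k * n := Nat.mul_le_mul_left _ hn

end Pool.Agent.H413R2.Sign
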